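import Pool.Agent.MZV2.EEV

set_option autoImplicit false

/-!
# MZV2 AllV: at least half of all double zeta values are outside a given space of finite dimension
-/

namespace Pool.Agent.MZD

open Finset Filter
open Pool.Agent.Helper21 (mzv H zl Adm tendsto_zl)
open Pool.Agent.MZA Pool.Agent.MZA.MonAux

/-- the bad pairs -/
def BV (V : Submodule (algebraicClosure ℚ ℝ) ℝ) (M : ℕ) : Set (ℕ × ℕ) :=
  {p | p ∈ QQ M ∧ mz [p.1, p.2] ∈ V ∧ mz [p.2, p.1] ∈ V}

/-- the sum of the two values of a bad pair -/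
theorem bv_sum {V : Submodule (algebraicClosure ℚ ℝ) ℝ} {a b : ℕ} (ha : 2 ≤ a) (hb : 2 ≤ b)
    (h1 : mz [a, b] ∈ V) (h2 : mz [b, a] ∈ V) : zl [a] * zl [b] - zl [a + b] ∈ V := by
  rw [mz_two a b ha (by omega)] at h1
  rw [mz_two b a hb (by omega)] at h2
  rw [stuffle a b ha hb]
  exact V.add_mem h1 h2

/-- the three kinds of bad pairs -/
theorem BV_le (V : Submodule (algebraicClosure ℚ ℝ) ℝ) (M : ℕ) :
    (BV V M).ncard ≤ (EB V M).ncard +
      (OSV V M).ncard +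
      (EOS V M).ncard := by
  classical
  set O : Set (ℕ × ℕ) := OSV V M with hO
  set B : Set (ℕ × ℕ) := EOS V M with hB
  have hsq : ∀ T : Set (ℕ × ℕ), (∀ p ∈ T, p.1 ≤ M ∧ p.2 ≤ M) → T.Finite := by
    intro T hT
    refine ((Finset.range (M + 1) ×ˢ Finset.range (M + 1)).finite_toSet).subset ?_
    rintro ⟨a, b⟩ hp
    have h := hT _ hp
    rw [Finset.mem_coe, Finset.mem_product, Finset.mem_range, Finset.mem_range]
    simp only at h ⊢
    omega
  have hOf : O.Finite := by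
    refine hsq O ?_
    rintro ⟨a, b⟩ ⟨_, _, _, _, h, _⟩
    simp only at h ⊢
    omega
  have hBf : B.Finite := by
    refine hsq B ?_
    rintro ⟨a, b⟩ ⟨_, _, _, h, h', _⟩
    simp only at h h' ⊢
    omega
  have hEf : (EB V M).Finite := by
    refine hsq _ ?_
    rintro ⟨a, b⟩ ⟨_, _, _, _, h, _⟩
    simp only at h ⊢
    omega
  set Bm : Set (ℕ × ℕ) := {p | p ∈ BV V M ∧ Odd (p.1 + p.2)} with hBm
  have hm : Bm.ncard ≤ B.ncard := by
    refine Set.ncard_le_ncard_of_injOn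
      (fun p : ℕ × ℕ => if Odd p.1 then (p.1, p.1 + p.2) else (p.2, p.1 + p.2)) ?_ ?_ hBf
    · rintro ⟨a, b⟩ ⟨⟨⟨ha2, hab, hM⟩, h1, h2⟩, hodd⟩
      simp only at ha2 hab hM h1 h2 hodd
      have h3 := bv_sum ha2 (ha2.trans hab) h1 h2
      show (if Odd a then (a, a + b) else (b, a + b)) ∈ B
      by_cases h : Odd a
      · rw [if_pos h]
        refine ⟨h, ?_, hodd, ?_, hM, ?_⟩
        · show 3 ≤ a
          obtain ⟨c, hc⟩ := h
          omega
        · show a + 2 ≤ a + b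
          omega
        · show zl [a + b - a] * zl [a] - zl [a + b] ∈ V
          rw [Nat.add_sub_cancel_left, mul_comm]
          exact h3
      · rw [if_neg h]
        have ha : Even a := Nat.not_odd_iff_even.1 h
        have hb : Odd b := by
          rcases Nat.even_or_odd b with h4 | h4
          · exact absurd (ha.add h4) (Nat.not_even_iff_odd.2 hodd)
          · exact h4
        refine ⟨hb, ?_, hodd, ?_, hM, ?_⟩
        · show 3 ≤ b
          obtain ⟨c, hc⟩ := hb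
          omega
        · show b + 2 ≤ a + b
          omega
        · show zl [a + b - b] * zl [b] - zl [a + b] ∈ V
          rw [Nat.add_sub_cancel]
          exact h3
    · rintro ⟨a, b⟩ ⟨⟨⟨_, hab, _⟩, _⟩, hodd⟩ ⟨a', b'⟩ ⟨⟨⟨_, hab', _⟩, _⟩, hodd'⟩ h
      simp only at hab hab' hodd hodd' h
      split_ifs at h with h5 h6 h6 <;> simp only [Prod.mk.injEq] at h ⊢ <;> obtain ⟨h7, h8⟩ := h
      · omega
      · obtain ⟨c, hc⟩ := hodd
        omega
      · obtain ⟨c, hc⟩ := hodd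
        omega
      · omega
  have hsub : BV V M ⊆ (EB V M ∪ O) ∪ Bm := by
    rintro ⟨a, b⟩ ⟨⟨ha2, hab, hM⟩, h1, h2⟩
    simp only at ha2 hab hM h1 h2
    have h3 := bv_sum ha2 (ha2.trans hab) h1 h2
    rcases Nat.even_or_odd a with ha | ha
    · rcases Nat.even_or_odd b with hb | hb
      · exact Or.inl (Or.inl ⟨ha2, hab, ha, hb, hM, h3⟩)
      · exact Or.inr ⟨⟨⟨ha2, hab, hM⟩, h1, h2⟩, ha.add_odd hb⟩
    · rcases Nat.even_or_odd b with hb | hb
      · exact Or.inr ⟨⟨⟨ha2, hab, hM⟩, h1, h2⟩, ha.add_even hb⟩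
      · refine Or.inl (Or.inr ⟨ha, ?_, hb, ?_, hM, h3⟩)
        · show 3 ≤ a
          obtain ⟨c, hc⟩ := ha
          omega
        · show 3 ≤ b
          obtain ⟨c, hc⟩ := hb
          omega
  have hBVf : (BV V M).Finite := (QQ_fin M).subset fun p hp => hp.1
  have hBmf : Bm.Finite := hBVf.subset fun p hp => hp.1
  calc (BV V M).ncard ≤ ((EB V M ∪ O) ∪ Bm).ncard :=
        Set.ncard_le_ncard hsub ((hEf.union hOf).union hBmf)
    _ ≤ (EB V M ∪ O).ncard + Bm.ncard := Set.ncard_union_le _ _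
    _ ≤ ((EB V M).ncard + O.ncard) + B.ncard := Nat.add_le_add (Set.ncard_union_le _ _) hm

theorem QV_le (V : Submodule (algebraicClosure ℚ ℝ) ℝ) (M : ℕ) :
    (QQ M).ncard ≤ (GV V M).ncard + (BV V M).ncard := by
  classical
  have hGf : (GV V M).Finite := (idx_fin M).subset fun w hw => ⟨hw.1, hw.2.1, hw.2.2.1⟩
  have hBQ : BV V M ⊆ QQ M := fun p hp => hp.1
  have h1 : (QQ M \ BV V M).ncard + (BV V M).ncard = (QQ M).ncard :=
    Set.ncard_sdiff_add_ncard_of_subset hBQ (QQ_fin M)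
  have h2 : (QQ M \ BV V M).ncard ≤ (GV V M).ncard := by
    refine Set.ncard_le_ncard_of_injOn (fun p : ℕ × ℕ =>
      if mz [p.1, p.2] ∈ V then [p.2, p.1] else [p.1, p.2]) ?_ ?_ hGf
    · rintro ⟨a, b⟩ ⟨⟨ha2, hab, hM⟩, hnB⟩
      simp only at ha2 hab hM
      show (if mz [a, b] ∈ V then [b, a] else [a, b]) ∈ GV V M
      by_cases h : mz [a, b] ∈ V
      · rw [if_pos h]
        have h3 : mz [b, a] ∉ V := fun h4 => hnB ⟨⟨ha2, hab, hM⟩, h, h4⟩
        have hs : [b, a].sum = b + a := by simp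
        refine ⟨rfl, ?_, ?_, h3⟩
        · rw [hs]
          omega
        · have hadm := adm_two b a (by omega) (by omega)
          exact ⟨hadm.1, hadm.2, rfl⟩
      · rw [if_neg h]
        have hs : [a, b].sum = a + b := by simp
        refine ⟨rfl, ?_, ?_, h⟩
        · rw [hs]
          omega
        · have hadm := adm_two a b (by omega) (by omega)
          exact ⟨hadm.1, hadm.2, rfl⟩
    · rintro ⟨a, b⟩ ⟨⟨_, hab, _⟩, _⟩ ⟨a', b'⟩ ⟨⟨_, hab', _⟩, _⟩ h
      simp only at hab hab' h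
      split_ifs at h with h5 h6 h6 <;> simp only [List.cons.injEq, and_true] at h <;>
        obtain ⟨h7, h8⟩ := h <;> rw [Prod.mk.injEq] <;> omega
  omega

/-- ALLV.  At least about half of all double zeta values of weight at most `M` are outside `V`,
from the bounds for the pairs with an odd entry. -/
theorem thm_AllV_of (V : Submodule (algebraicClosure ℚ ℝ) ℝ)
    [Module.Finite (algebraicClosure ℚ ℝ) V] (M : ℕ)
    (hOO : (OSV V M).ncard ^ 2 ≤
      (2 * Module.finrank (algebraicClosure ℚ ℝ) V + 2) * ((M - 4) / 2) ^ 3)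
    (hEO : (EOS V M).ncard ^ 2 ≤
      (Module.finrank (algebraicClosure ℚ ℝ) V + 2) * ((M - 3) / 2) ^ 3) (hM : 1 ≤ M) :
    ((M : ℝ) - 1) * ((M : ℝ) - 2) / 4 -
      5 / 4 * Real.sqrt (((Module.finrank (algebraicClosure ℚ ℝ) V : ℝ) + 1) * (M : ℝ) ^ 3) ≤
        ((GV V M).ncard : ℝ) := by
  have h1 := QQ_card M
  have h2 := QV_le V M
  have h3 := BV_le V M
  have h4 := thm_EEV V M
  set k := Module.finrank (algebraicClosure ℚ ℝ) V with hk
  set O : Set (ℕ × ℕ) := OSV V M with hO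
  set B : Set (ℕ × ℕ) := EOS V M with hB
  set s : ℝ := Real.sqrt (((k : ℝ) + 1) * (M : ℝ) ^ 3) with hs
  have hk0 : (0 : ℝ) ≤ k := Nat.cast_nonneg k
  have hM1 : (1 : ℝ) ≤ M := by exact_mod_cast hM
  have hs0 : 0 ≤ s := Real.sqrt_nonneg _
  have hs2 : s ^ 2 = ((k : ℝ) + 1) * (M : ℝ) ^ 3 := Real.sq_sqrt (by positivity)
  have hM3 : (0 : ℝ) ≤ (M : ℝ) ^ 3 := by positivity
  have h5 : (O.ncard : ℝ) ≤ s / 2 := by
    have h6 : (((M - 4) / 2 : ℕ) : ℝ) ≤ M / 2 := by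
      have h7 : 2 * ((M - 4) / 2) ≤ M := by omega
      have h8 : (2 : ℝ) * (((M - 4) / 2 : ℕ) : ℝ) ≤ M := by exact_mod_cast h7
      linarith
    have h7 : (O.ncard : ℝ) ^ 2 ≤ (2 * k + 2) * (((M - 4) / 2 : ℕ) : ℝ) ^ 3 := by
      exact_mod_cast hOO
    have h8 : (((M - 4) / 2 : ℕ) : ℝ) ^ 3 ≤ (M / 2 : ℝ) ^ 3 :=
      pow_le_pow_left₀ (Nat.cast_nonneg _) h6 3
    have h9 : (O.ncard : ℝ) ^ 2 ≤ (s / 2) ^ 2 := by
      rw [div_pow, hs2]
      calc (O.ncard : ℝ) ^ 2 ≤ (2 * k + 2) * (((M - 4) / 2 : ℕ) : ℝ) ^ 3 := h7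
        _ ≤ (2 * k + 2) * (M / 2 : ℝ) ^ 3 := mul_le_mul_of_nonneg_left h8 (by positivity)
        _ = (k + 1) * (M : ℝ) ^ 3 / 2 ^ 2 := by ring
    exact (pow_le_pow_iff_left₀ (Nat.cast_nonneg _) (by positivity) two_ne_zero).1 h9
  have h5' : (B.ncard : ℝ) ≤ s / 2 := by
    have h6 : (((M - 3) / 2 : ℕ) : ℝ) ≤ M / 2 := by
      have h7 : 2 * ((M - 3) / 2) ≤ M := by omega
      have h8 : (2 : ℝ) * (((M - 3) / 2 : ℕ) : ℝ) ≤ M := by exact_mod_cast h7
      linarith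
    have h7 : (B.ncard : ℝ) ^ 2 ≤ (k + 2) * (((M - 3) / 2 : ℕ) : ℝ) ^ 3 := by
      exact_mod_cast hEO
    have h8 : (((M - 3) / 2 : ℕ) : ℝ) ^ 3 ≤ (M / 2 : ℝ) ^ 3 :=
      pow_le_pow_left₀ (Nat.cast_nonneg _) h6 3
    have h9 : (B.ncard : ℝ) ^ 2 ≤ (s / 2) ^ 2 := by
      rw [div_pow, hs2]
      calc (B.ncard : ℝ) ^ 2 ≤ (k + 2) * (((M - 3) / 2 : ℕ) : ℝ) ^ 3 := h7
        _ ≤ (k + 2) * (M / 2 : ℝ) ^ 3 := mul_le_mul_of_nonneg_left h8 (by positivity)
        _ ≤ (2 * k + 2) * (M / 2 : ℝ) ^ 3 :=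
          mul_le_mul_of_nonneg_right (by linarith) (by positivity)
        _ = (k + 1) * (M : ℝ) ^ 3 / 2 ^ 2 := by ring
    exact (pow_le_pow_iff_left₀ (Nat.cast_nonneg _) (by positivity) two_ne_zero).1 h9
  have hG0 : (0 : ℝ) ≤ ((GV V M).ncard : ℝ) := Nat.cast_nonneg _
  rcases Nat.lt_or_ge M (k + 1) with h10 | h10
  · have h11 : (M : ℝ) ≤ k + 1 := by exact_mod_cast h10.le
    have h12 : (M : ℝ) ^ 2 ≤ s := by
      have h13 : ((M : ℝ) ^ 2) ^ 2 ≤ s ^ 2 := by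
        rw [hs2]
        calc ((M : ℝ) ^ 2) ^ 2 = M * (M : ℝ) ^ 3 := by ring
          _ ≤ (k + 1) * (M : ℝ) ^ 3 := mul_le_mul_of_nonneg_right h11 hM3
      exact (pow_le_pow_iff_left₀ (by positivity) hs0 two_ne_zero).1 h13
    nlinarith
  · have h11 : (k : ℝ) + 1 ≤ M := by exact_mod_cast h10
    have h12 : ((k : ℝ) + 1) * M ≤ s := by
      have h13 : (((k : ℝ) + 1) * M) ^ 2 ≤ s ^ 2 := by
        rw [hs2]
        calc (((k : ℝ) + 1) * M) ^ 2 = (k + 1) * ((k + 1) * (M : ℝ) ^ 2) := by ring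
          _ ≤ (k + 1) * (M * (M : ℝ) ^ 2) := by
            refine mul_le_mul_of_nonneg_left ?_ (by positivity)
            exact mul_le_mul_of_nonneg_right h11 (by positivity)
          _ = (k + 1) * (M : ℝ) ^ 3 := by ring
      exact (pow_le_pow_iff_left₀ (by positivity) hs0 two_ne_zero).1 h13
    have h14 : ((M : ℝ) - 1) * (M - 3) ≤ 4 * ((QQ M).ncard : ℝ) := by
      rcases Nat.lt_or_ge M 3 with h15 | h15
      · have h16 : (M : ℝ) ≤ 2 := by exact_mod_cast (by omega : M ≤ 2)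
        have h17 : (0 : ℝ) ≤ 4 * ((QQ M).ncard : ℝ) := by positivity
        nlinarith
      · have h16 : ((M - 1 : ℕ) : ℝ) = M - 1 := by
          rw [Nat.cast_sub (by omega)]
          norm_num
        have h17 : ((M - 3 : ℕ) : ℝ) = M - 3 := by
          rw [Nat.cast_sub (by omega)]
          norm_num
        rw [← h16, ← h17]
        exact_mod_cast h1
    have h15 : ((QQ M).ncard : ℝ) ≤ (GV V M).ncard + (BV V M).ncard := by exact_mod_cast h2
    have h16 : ((BV V M).ncard : ℝ) ≤ (EB V M).ncard + O.ncard + B.ncard := by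
      exact_mod_cast h3
    have h17 : ((EB V M).ncard : ℝ) * 4 ≤ k * M := by exact_mod_cast h4
    nlinarith

end Pool.Agent.MZD
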