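import Pool.Agent.MZV2.Rows

set_option autoImplicit false

/-!
# Few bad pairs
-/

namespace Pool.Agent.MZD

open Finset
open Pool.Agent.Helper21 (mzv H zl Adm tendsto_zl)
open Pool.Agent.MZA Pool.Agent.MZA.MonAux

/-- a bipartite graph in which two different vertices have at most `κ` common neighbours -/
theorem kst2 (m κ : ℕ) (R : ℕ → ℕ → Prop)
    (h : ∀ a b, a < b → a < m → b < m → {n | n < m ∧ R a n ∧ R b n}.ncard ≤ κ) :
    {p : ℕ × ℕ | p.1 < m ∧ p.2 < m ∧ R p.1 p.2}.ncard ^ 2 ≤ (κ + 1) * m ^ 3 := by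
  classical
  set E : ℕ → Finset (Fin 1 → Fin m) := fun j => univ.filter (fun u => R (u 0 : ℕ) j) with hE
  have hmem : ∀ j u, u ∈ E j ↔ R (u 0 : ℕ) j := by
    intro j u
    rw [hE]
    simp only [mem_filter, mem_univ, true_and]
  have h1 : ∑ n ∈ Finset.range m, (E n).card ^ (2 ^ 1) ≤ (κ + 1) * m ^ (1 * 2 ^ 1) := by
    apply Pool.Agent.MZF.thm_KstV 1 m κ (Finset.range m) E le_rfl
    · rw [card_range]
    · intro v w hvw
      refine le_trans (Set.ncard_le_ncard ?_ ?_) (h (v 0) (w 0) (hvw 0) (v 0).2 (w 0).2)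
      · rintro n ⟨hn, hn2⟩
        have g1 := (hmem n _).1 (hn2 ∅)
        have g2 := (hmem n _).1 (hn2 univ)
        unfold Pool.Agent.MZF.cor at g1 g2
        rw [if_neg (notMem_empty _)] at g1
        rw [if_pos (mem_univ _)] at g2
        exact ⟨Finset.mem_range.1 hn, g1, g2⟩
      · exact (Set.finite_lt_nat m).subset fun n hn => hn.1
  have h2 : (∑ n ∈ Finset.range m, (E n).card) ^ 2 ≤ m * ∑ n ∈ Finset.range m, (E n).card ^ 2 := by
    have := sq_sum_le_card_mul_sum_sq (s := Finset.range m) (f := fun n => (E n).card)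
    simpa using this
  have h3 : {p : ℕ × ℕ | p.1 < m ∧ p.2 < m ∧ R p.1 p.2}.ncard ≤
      ∑ n ∈ Finset.range m, (E n).card := by
    rw [← Finset.card_sigma]
    have hsub : {p : ℕ × ℕ | p.1 < m ∧ p.2 < m ∧ R p.1 p.2} ⊆
        ((((Finset.range m).sigma E).image
        (fun q : (Σ _ : ℕ, (Fin 1 → Fin m)) => ((q.2 0 : ℕ), q.1)) :
          Finset (ℕ × ℕ)) : Set (ℕ × ℕ)) := by
      rintro ⟨a, b⟩ ⟨ha, hb, hab⟩
      simp only at ha hb hab
      rw [mem_coe, mem_image]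
      refine ⟨⟨b, fun _ => ⟨a, ha⟩⟩, ?_, rfl⟩
      rw [mem_sigma, hmem]
      exact ⟨Finset.mem_range.2 hb, hab⟩
    refine (Set.ncard_le_ncard hsub (Finset.finite_toSet _)).trans ?_
    rw [Set.ncard_coe_finset]
    exact Finset.card_image_le
  rw [pow_one] at h1
  calc {p : ℕ × ℕ | p.1 < m ∧ p.2 < m ∧ R p.1 p.2}.ncard ^ 2
      ≤ (∑ n ∈ Finset.range m, (E n).card) ^ 2 := Nat.pow_le_pow_left h3 2
    _ ≤ m * ∑ n ∈ Finset.range m, (E n).card ^ 2 := h2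
    _ ≤ m * ((κ + 1) * m ^ (1 * 2)) := Nat.mul_le_mul_left _ h1
    _ = (κ + 1) * m ^ 3 := by ring

theorem pairs_fin (m : ℕ) (R : ℕ → ℕ → Prop) :
    {p : ℕ × ℕ | p.1 < m ∧ p.2 < m ∧ R p.1 p.2}.Finite := by
  refine ((Finset.range m ×ˢ Finset.range m).finite_toSet).subset ?_
  rintro ⟨a, b⟩ ⟨h1, h2, -⟩
  rw [Finset.mem_coe, Finset.mem_product, Finset.mem_range, Finset.mem_range]
  exact ⟨h1, h2⟩

variable (V : Submodule (algebraicClosure ℚ ℝ) ℝ)

theorem OSV_fin (M : ℕ) : (OSV V M).Finite := by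
  refine ((Finset.range (M + 1) ×ˢ Finset.range (M + 1)).finite_toSet).subset ?_
  rintro ⟨a, b⟩ ⟨_, _, _, _, h, _⟩
  rw [Finset.mem_coe, Finset.mem_product, Finset.mem_range, Finset.mem_range]
  simp only at h ⊢
  omega

theorem EOS_fin (M : ℕ) : (EOS V M).Finite := by
  refine ((Finset.range (M + 1) ×ˢ Finset.range (M + 1)).finite_toSet).subset ?_
  rintro ⟨a, b⟩ ⟨_, _, _, h, h', _⟩
  rw [Finset.mem_coe, Finset.mem_product, Finset.mem_range, Finset.mem_range]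
  simp only at h h' ⊢
  omega

variable [Module.Finite (algebraicClosure ℚ ℝ) V]

/-- OO.  Few bad pairs of odd numbers. -/
theorem thm_OOV (M : ℕ) : (OSV V M).ncard ^ 2 ≤
    (2 * Module.finrank (algebraicClosure ℚ ℝ) V + 2) * ((M - 4) / 2) ^ 3 := by
  classical
  set k := Module.finrank (algebraicClosure ℚ ℝ) V with hk
  set m := (M - 4) / 2 with hm
  set R : ℕ → ℕ → Prop := fun i j =>
    zl [2 * i + 3] * zl [2 * j + 3] - zl [(2 * i + 3) + (2 * j + 3)] ∈ V with hR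
  have h1 := kst2 m (2 * k + 1) R (fun a b hab ha hb => by
    have hf : {n | n < m ∧ R a n ∧ R b n}.Finite := (Set.finite_lt_nat m).subset fun n hn => hn.1
    rw [Set.ncard_eq_toFinset_card _ hf]
    rw [← Finset.card_image_of_injective hf.toFinset
      (f := fun n : ℕ => 2 * n + 3) (fun x y h => by simp only at h; omega)]
    refine oo_rows V (a₁ := 2 * a + 3) (a₂ := 2 * b + 3) ⟨a + 1, by ring⟩ ⟨b + 1, by ring⟩
      (by omega) (by omega) (by omega) _ fun c hc => ?_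
    rw [Finset.mem_image] at hc
    obtain ⟨n, hn, rfl⟩ := hc
    rw [Set.Finite.mem_toFinset] at hn
    exact ⟨⟨n + 1, by ring⟩, by omega, hn.2.1, hn.2.2⟩)
  have h2 : (OSV V M).ncard ≤ {p : ℕ × ℕ | p.1 < m ∧ p.2 < m ∧ R p.1 p.2}.ncard := by
    refine Set.ncard_le_ncard_of_injOn (fun p : ℕ × ℕ => ((p.1 - 3) / 2, (p.2 - 3) / 2)) ?_ ?_
      (pairs_fin m R)
    · rintro ⟨a, b⟩ ⟨oa, ha, ob, hb, hM, hab⟩
      simp only at oa ha ob hb hM hab
      obtain ⟨i, hi⟩ := oa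
      obtain ⟨j, hj⟩ := ob
      refine ⟨?_, ?_, ?_⟩
      · show (a - 3) / 2 < m
        omega
      · show (b - 3) / 2 < m
        omega
      · show R ((a - 3) / 2) ((b - 3) / 2)
        have e1 : 2 * ((a - 3) / 2) + 3 = a := by omega
        have e2 : 2 * ((b - 3) / 2) + 3 = b := by omega
        show zl [2 * ((a - 3) / 2) + 3] * zl [2 * ((b - 3) / 2) + 3] -
          zl [(2 * ((a - 3) / 2) + 3) + (2 * ((b - 3) / 2) + 3)] ∈ V
        rw [e1, e2]
        exact hab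
    · rintro ⟨a, b⟩ ⟨oa, ha, ob, hb, hM, hab⟩ ⟨a', b'⟩ ⟨oa', ha', ob', hb', hM', hab'⟩ h
      simp only [Prod.mk.injEq] at oa ha ob hb oa' ha' ob' hb' h ⊢
      obtain ⟨i, hi⟩ := oa
      obtain ⟨j, hj⟩ := ob
      obtain ⟨i', hi'⟩ := oa'
      obtain ⟨j', hj'⟩ := ob'
      omega
  calc (OSV V M).ncard ^ 2 ≤ _ := Nat.pow_le_pow_left h2 2
    _ ≤ (2 * k + 1 + 1) * m ^ 3 := h1
    _ = (2 * k + 2) * m ^ 3 := by ring

/-- EO.  Few bad pairs of an odd number and an odd weight. -/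
theorem thm_EOV (M : ℕ) : (EOS V M).ncard ^ 2 ≤
    (Module.finrank (algebraicClosure ℚ ℝ) V + 2) * ((M - 3) / 2) ^ 3 := by
  classical
  set k := Module.finrank (algebraicClosure ℚ ℝ) V with hk
  set m := (M - 3) / 2 with hm
  set R : ℕ → ℕ → Prop := fun i j => i ≤ j ∧
    zl [(2 * j + 5) - (2 * i + 3)] * zl [2 * i + 3] - zl [2 * j + 5] ∈ V with hR
  have h1 := kst2 m (k + 1) R (fun a b hab ha hb => by
    have hf : {n | n < m ∧ R a n ∧ R b n}.Finite := (Set.finite_lt_nat m).subset fun n hn => hn.1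
    rw [Set.ncard_eq_toFinset_card _ hf]
    rw [← Finset.card_image_of_injective hf.toFinset
      (f := fun n : ℕ => 2 * n + 5) (fun x y h => by simp only at h; omega)]
    refine eo_rows V (b₁ := 2 * a + 3) (b₂ := 2 * b + 3) ⟨a + 1, by ring⟩ ⟨b + 1, by ring⟩
      (by omega) (by omega) (by omega) _ fun c hc => ?_
    rw [Finset.mem_image] at hc
    obtain ⟨n, hn, rfl⟩ := hc
    rw [Set.Finite.mem_toFinset] at hn
    obtain ⟨-, ⟨hn1, hn2⟩, hn3, hn4⟩ := hn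
    exact ⟨⟨n + 2, by ring⟩, by omega, by omega, hn2, hn4⟩)
  have h2 : (EOS V M).ncard ≤ {p : ℕ × ℕ | p.1 < m ∧ p.2 < m ∧ R p.1 p.2}.ncard := by
    refine Set.ncard_le_ncard_of_injOn (fun p : ℕ × ℕ => ((p.1 - 3) / 2, (p.2 - 5) / 2)) ?_ ?_
      (pairs_fin m R)
    · rintro ⟨a, b⟩ ⟨oa, ha, ob, hb, hM, hab⟩
      simp only at oa ha ob hb hM hab
      obtain ⟨i, hi⟩ := oa
      obtain ⟨j, hj⟩ := ob
      refine ⟨?_, ?_, ?_⟩
      · show (a - 3) / 2 < m
        omega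
      · show (b - 5) / 2 < m
        omega
      · show R ((a - 3) / 2) ((b - 5) / 2)
        have e1 : 2 * ((a - 3) / 2) + 3 = a := by omega
        have e2 : 2 * ((b - 5) / 2) + 5 = b := by omega
        refine ⟨by omega, ?_⟩
        show zl [(2 * ((b - 5) / 2) + 5) - (2 * ((a - 3) / 2) + 3)] *
          zl [2 * ((a - 3) / 2) + 3] - zl [2 * ((b - 5) / 2) + 5] ∈ V
        rw [e1, e2]
        exact hab
    · rintro ⟨a, b⟩ ⟨oa, ha, ob, hb, hM, hab⟩ ⟨a', b'⟩ ⟨oa', ha', ob', hb', hM', hab'⟩ h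
      simp only [Prod.mk.injEq] at oa ha ob hb oa' ha' ob' hb' h ⊢
      obtain ⟨i, hi⟩ := oa
      obtain ⟨j, hj⟩ := ob
      obtain ⟨i', hi'⟩ := oa'
      obtain ⟨j', hj'⟩ := ob'
      omega
  calc (EOS V M).ncard ^ 2 ≤ _ := Nat.pow_le_pow_left h2 2
    _ ≤ (k + 1 + 1) * m ^ 3 := h1
    _ = (k + 2) * m ^ 3 := by ring

end Pool.Agent.MZD
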