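import Pool.Agent.MZD.All

set_option autoImplicit false

/-!
# Sets of pairs and of indices for a space `V`
-/

namespace Pool.Agent.MZD

open Pool.Agent.Helper21 (mzv H zl Adm tendsto_zl)
open Pool.Agent.MZA Pool.Agent.MZA.MonAux

/-- bad pairs of odd numbers, ordered -/
def OSV (V : Submodule (algebraicClosure ℚ ℝ) ℝ) (M : ℕ) : Set (ℕ × ℕ) :=
  {p | Odd p.1 ∧ 3 ≤ p.1 ∧ Odd p.2 ∧ 3 ≤ p.2 ∧ p.1 + p.2 ≤ M ∧
    zl [p.1] * zl [p.2] - zl [p.1 + p.2] ∈ V}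

/-- bad pairs: an odd number and an odd weight -/
def EOS (V : Submodule (algebraicClosure ℚ ℝ) ℝ) (M : ℕ) : Set (ℕ × ℕ) :=
  {p | Odd p.1 ∧ 3 ≤ p.1 ∧ Odd p.2 ∧ p.1 + 2 ≤ p.2 ∧ p.2 ≤ M ∧
    zl [p.2 - p.1] * zl [p.1] - zl [p.2] ∈ V}

/-- bad pairs of even numbers -/
def EB (V : Submodule (algebraicClosure ℚ ℝ) ℝ) (M : ℕ) : Set (ℕ × ℕ) :=
  {p | 2 ≤ p.1 ∧ p.1 ≤ p.2 ∧ Even p.1 ∧ Even p.2 ∧ p.1 + p.2 ≤ M ∧
    zl [p.1] * zl [p.2] - zl [p.1 + p.2] ∈ V}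

/-- the double zeta values of weight at most `M` outside `V` -/
def GV (V : Submodule (algebraicClosure ℚ ℝ) ℝ) (M : ℕ) : Set (List ℕ) :=
  {w | w.length = 2 ∧ w.sum ≤ M ∧ w ∈ Idx w.sum ∧ mz w ∉ V}

/-- the double zeta values of odd weight at most `M` outside `V` -/
def TTV (V : Submodule (algebraicClosure ℚ ℝ) ℝ) (M : ℕ) : Set (List ℕ) :=
  {w | w.length = 2 ∧ Odd w.sum ∧ w.sum ≤ M ∧ w ∈ Idx w.sum ∧ mz w ∉ V}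

end Pool.Agent.MZD
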