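import Pool.Agent.MZV2.Defs

set_option autoImplicit false

/-!
# MZV2 EEV: pairs of even numbers and spaces of finite dimension
-/

namespace Pool.Agent.MZD

open Finset Filter
open Pool.Agent.Helper21 (mzv H zl Adm tendsto_zl)
open Pool.Agent.MZA Pool.Agent.MZA.MonAux

/-- the powers of `π` in a space of finite dimension -/
theorem pi_card (V : Submodule (algebraicClosure ℚ ℝ) ℝ)
    [Module.Finite (algebraicClosure ℚ ℝ) V] (S : Finset ℕ) (hS : ∀ n ∈ S, Real.pi ^ n ∈ V) :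
    S.card ≤ Module.finrank (algebraicClosure ℚ ℝ) V := by
  have htr := Pool.Agent.Helper21.transcendental_pi.algebraicClosure
  have h1 := indep 1 Real.pi one_ne_zero htr
  have h2 : LinearIndependent (algebraicClosure ℚ ℝ)
      (fun n : S => (⟨Real.pi ^ (n : ℕ), hS n n.2⟩ : V)) := by
    have h3 : LinearIndependent (algebraicClosure ℚ ℝ)
        (fun n : S => (1 : ℝ) * Real.pi ^ (n : ℕ)) :=
      h1.comp (fun n : S => (n : ℕ)) Subtype.val_injective
    have h4 : (V.subtype : V → ℝ) ∘ (fun n : S => (⟨Real.pi ^ (n : ℕ), hS n n.2⟩ : V)) =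
        (fun n : S => (1 : ℝ) * Real.pi ^ (n : ℕ)) := by
      funext n
      rw [one_mul]
      rfl
    rw [← h4] at h3
    exact LinearIndependent.of_comp V.subtype h3
  have h5 := h2.fintype_card_le_finrank
  rwa [Fintype.card_coe] at h5

/-- the value of a pair of even numbers -/
theorem even_even_mem (V : Submodule (algebraicClosure ℚ ℝ) ℝ) (a b : ℕ) (ha : 2 ≤ a)
    (hb : 2 ≤ b) (ha' : Even a) (hb' : Even b) (h : zl [a] * zl [b] - zl [a + b] ∈ V) :
    Real.pi ^ (a + b) ∈ V := by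
  obtain ⟨i, hi⟩ := ha'
  obtain ⟨j, hj⟩ := hb'
  have ei : a = 2 * i := by omega
  have ej : b = 2 * j := by omega
  have hij : a + b = 2 * (i + j) := by omega
  obtain ⟨q, -, hq⟩ := thm_Zev i (by omega)
  obtain ⟨r, -, hr⟩ := thm_Zev j (by omega)
  obtain ⟨s, -, hs⟩ := thm_Zev (i + j) (by omega)
  have hpos : 0 < zl [a] * zl [b] - zl [a + b] := by
    rw [stuffle a b ha hb]
    exact add_pos (main_zl_pos _ (adm_two a b ha (by omega)))
      (main_zl_pos _ (adm_two b a hb (by omega)))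
  have hval : zl [a] * zl [b] - zl [a + b] = ((q * r - s : ℚ) : ℝ) * Real.pi ^ (a + b) := by
    rw [← ei] at hq
    rw [← ej] at hr
    rw [← hij] at hs
    rw [hq, hr, hs, pow_add]
    push_cast
    ring
  rw [hval] at h hpos
  have hne : (q * r - s : ℚ) ≠ 0 := by
    intro h0
    rw [h0, Rat.cast_zero, zero_mul] at hpos
    exact lt_irrefl _ hpos
  have e1 : algebraMap (algebraicClosure ℚ ℝ) ℝ
      (algebraMap ℚ (algebraicClosure ℚ ℝ) (q * r - s)⁻¹) = (((q * r - s)⁻¹ : ℚ) : ℝ) := by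
    rw [← IsScalarTower.algebraMap_apply]
    rfl
  have h1 := V.smul_mem (algebraMap ℚ (algebraicClosure ℚ ℝ) (q * r - s)⁻¹) h
  rw [Algebra.smul_def, e1, ← mul_assoc, ← Rat.cast_mul, inv_mul_cancel₀ hne, Rat.cast_one,
    one_mul] at h1
  exact h1

/-- EEV.  Few bad pairs of even numbers. -/
theorem thm_EEV (V : Submodule (algebraicClosure ℚ ℝ) ℝ)
    [Module.Finite (algebraicClosure ℚ ℝ) V] (M : ℕ) :
    (EB V M).ncard * 4 ≤ Module.finrank (algebraicClosure ℚ ℝ) V * M := by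
  classical
  set S : Finset ℕ := (Finset.range (M + 1)).filter (fun n => Real.pi ^ n ∈ V) with hS
  have h1 : S.card ≤ Module.finrank (algebraicClosure ℚ ℝ) V := by
    refine pi_card V S fun n hn => ?_
    rw [hS, Finset.mem_filter] at hn
    exact hn.2
  have h2 : (EB V M).ncard ≤ (S ×ˢ Finset.Icc 1 (M / 4)).card := by
    rw [← Set.ncard_coe_finset]
    refine Set.ncard_le_ncard_of_injOn (fun p : ℕ × ℕ => (p.1 + p.2, p.1 / 2)) ?_ ?_
      (Finset.finite_toSet _)
    · rintro ⟨a, b⟩ ⟨ha2, hab, ha, hb, hM, hV⟩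
      simp only at ha2 hab ha hb hM hV
      show (a + b, a / 2) ∈ ((S ×ˢ Finset.Icc 1 (M / 4) : Finset (ℕ × ℕ)) : Set (ℕ × ℕ))
      rw [Finset.mem_coe, Finset.mem_product, hS, Finset.mem_filter, Finset.mem_range,
        Finset.mem_Icc]
      refine ⟨⟨?_, ?_⟩, ?_, ?_⟩
      · show a + b < M + 1
        omega
      · exact even_even_mem V a b ha2 (ha2.trans hab) ha hb hV
      · show 1 ≤ a / 2
        omega
      · show a / 2 ≤ M / 4
        omega
    · rintro ⟨a, b⟩ ⟨ha2, hab, ha, hb, hM, hV⟩ ⟨a', b'⟩ ⟨ha2', hab', ha', hb', hM', hV'⟩ h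
      simp only at ha2 hab ha hb hM ha2' hab' ha' hb' hM' h
      simp only [Prod.mk.injEq] at h ⊢
      obtain ⟨h3, h4⟩ := h
      obtain ⟨i, hi⟩ := ha
      obtain ⟨j, hj⟩ := ha'
      omega
  rw [Finset.card_product, Nat.card_Icc] at h2
  have h3 : 4 * (M / 4 + 1 - 1) ≤ M := by omega
  calc (EB V M).ncard * 4 ≤ S.card * (M / 4 + 1 - 1) * 4 := Nat.mul_le_mul_right 4 h2
    _ = S.card * (4 * (M / 4 + 1 - 1)) := by ring
    _ ≤ Module.finrank (algebraicClosure ℚ ℝ) V * M := Nat.mul_le_mul h1 h3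

end Pool.Agent.MZD
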