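import Pool.Agent.MZV2.AllV
import Pool.Agent.MZV2.Cnt

set_option autoImplicit false

/-!
# MZV2 EvenV: the double zeta values of even weight
-/

namespace Pool.Agent.MZD

open Finset Filter
open Pool.Agent.Helper21 (mzv H zl Adm tendsto_zl)
open Pool.Agent.MZA Pool.Agent.MZA.MonAux

/-- the unordered pairs of even sum -/
def QE (M : ℕ) : Set (ℕ × ℕ) := {p | p ∈ QQ M ∧ Even (p.1 + p.2)}

/-- the double zeta values of even weight at most `M` outside `V` -/
def EEW (V : Submodule (algebraicClosure ℚ ℝ) ℝ) (M : ℕ) : Set (List ℕ) :=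
  {w | w.length = 2 ∧ Even w.sum ∧ w.sum ≤ M ∧ w ∈ Idx w.sum ∧ mz w ∉ V}

theorem QE_fin (M : ℕ) : (QE M).Finite := (QQ_fin M).subset fun _ hp => hp.1

theorem QE_card (M : ℕ) : M / 2 * (M / 2 - 1) ≤ 2 * (QE M).ncard := by
  have h1 : ((Finset.range (M / 2)).sigma (fun i => Finset.range i)).card ≤ (QE M).ncard := by
    rw [← Set.ncard_coe_finset]
    refine Set.ncard_le_ncard_of_injOn
      (fun q : (Σ _ : ℕ, ℕ) => (q.2 + 2, 2 * q.1 - q.2)) ?_ ?_ (QE_fin M)
    · rintro ⟨i, j⟩ hq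
      rw [Finset.mem_coe, Finset.mem_sigma, Finset.mem_range, Finset.mem_range] at hq
      obtain ⟨hi, hj⟩ := hq
      simp only at hi hj
      show (2 ≤ j + 2 ∧ j + 2 ≤ 2 * i - j ∧ j + 2 + (2 * i - j) ≤ M) ∧ Even (j + 2 + (2 * i - j))
      refine ⟨⟨by omega, by omega, by omega⟩, i + 1, by omega⟩
    · rintro ⟨i, j⟩ hq ⟨i', j'⟩ hq' h
      rw [Finset.mem_coe, Finset.mem_sigma, Finset.mem_range, Finset.mem_range] at hq hq'
      simp only at hq hq'
      simp only [Prod.mk.injEq] at h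
      obtain ⟨h1, h2⟩ := h
      have e1 : i = i' := by omega
      have e2 : j = j' := by omega
      rw [e1, e2]
  rw [Finset.card_sigma] at h1
  simp only [Finset.card_range] at h1
  have h2 := Finset.sum_range_id_mul_two (M / 2)
  omega

/-- the number of all double zeta indices of even weight at most `M` -/
theorem even_total (M : ℕ) :
    {w : List ℕ | w.length = 2 ∧ Even w.sum ∧ w.sum ≤ M ∧ w ∈ Idx w.sum}.ncard =
      M / 2 * (M / 2 - 1) := by
  have h1 := total2 M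
  have h2 := total M
  set E : Set (List ℕ) := {w : List ℕ | w.length = 2 ∧ Even w.sum ∧ w.sum ≤ M ∧ w ∈ Idx w.sum}
    with hE
  set D : Set (List ℕ) := {w : List ℕ | w.length = 2 ∧ Odd w.sum ∧ w.sum ≤ M ∧ w ∈ Idx w.sum}
    with hD
  have hEf : E.Finite := (idx_fin M).subset fun w hw => ⟨hw.1, hw.2.2.1, hw.2.2.2⟩
  have hDf : D.Finite := (idx_fin M).subset fun w hw => ⟨hw.1, hw.2.2.1, hw.2.2.2⟩
  have hdis : Disjoint E D := by
    rw [Set.disjoint_left]
    intro w hw hw'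
    exact (Nat.not_odd_iff_even.2 hw.2.1) hw'.2.1
  have h3 : {w : List ℕ | w.length = 2 ∧ w.sum ≤ M ∧ w ∈ Idx w.sum} = E ∪ D := by
    ext w
    constructor
    · rintro ⟨h1, h2, h3⟩
      rcases Nat.even_or_odd w.sum with h | h
      · exact Or.inl ⟨h1, h, h2, h3⟩
      · exact Or.inr ⟨h1, h, h2, h3⟩
    · rintro (⟨h1, h, h2, h3⟩ | ⟨h1, h, h2, h3⟩)
      · exact ⟨h1, h2, h3⟩
      · exact ⟨h1, h2, h3⟩
  rw [h3, Set.ncard_union_eq hdis hEf hDf, h2] at h1
  rcases Nat.even_or_odd' M with ⟨c, hc | hc⟩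
  · rcases c with _ | c
    · subst hc
      simp at h1 ⊢
      omega
    · have e1 : M - 1 = 2 * c + 1 := by omega
      have e2 : M - 2 = 2 * c := by omega
      have e3 : (2 * c + 1) / 2 = c := by omega
      have e4 : M / 2 = c + 1 := by omega
      rw [e1, e2, e3] at h1
      rw [e4, Nat.add_sub_cancel]
      nlinarith
  · rcases c with _ | c
    · subst hc
      simp at h1 ⊢
      omega
    · have e1 : M - 1 = 2 * (c + 1) := by omega
      have e2 : M - 2 = 2 * c + 1 := by omega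
      have e3 : 2 * (c + 1) / 2 = c + 1 := by omega
      have e4 : M / 2 = c + 1 := by omega
      rw [e1, e2, e3] at h1
      rw [e4, Nat.add_sub_cancel]
      nlinarith

/-- the bad pairs of even sum -/
def BE (V : Submodule (algebraicClosure ℚ ℝ) ℝ) (M : ℕ) : Set (ℕ × ℕ) :=
  {p | p ∈ QE M ∧ mz [p.1, p.2] ∈ V ∧ mz [p.2, p.1] ∈ V}

theorem BE_le (V : Submodule (algebraicClosure ℚ ℝ) ℝ) (M : ℕ) :
    (BE V M).ncard ≤ (EB V M).ncard + (OSV V M).ncard := by
  have hsq : ∀ T : Set (ℕ × ℕ), (∀ p ∈ T, p.1 ≤ M ∧ p.2 ≤ M) → T.Finite := by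
    intro T hT
    refine ((Finset.range (M + 1) ×ˢ Finset.range (M + 1)).finite_toSet).subset ?_
    rintro ⟨a, b⟩ hp
    have h := hT _ hp
    rw [Finset.mem_coe, Finset.mem_product, Finset.mem_range, Finset.mem_range]
    simp only at h ⊢
    omega
  have hEf : (EB V M).Finite := by
    refine hsq _ ?_
    rintro ⟨a, b⟩ ⟨_, _, _, _, h, _⟩
    simp only at h ⊢
    omega
  have hsub : BE V M ⊆ EB V M ∪ OSV V M := by
    rintro ⟨a, b⟩ ⟨⟨⟨ha2, hab, hM⟩, heven⟩, h1, h2⟩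
    simp only at ha2 hab hM heven h1 h2
    have h3 := bv_sum ha2 (ha2.trans hab) h1 h2
    rcases Nat.even_or_odd a with ha | ha
    · have hb : Even b := (Nat.even_add.1 heven).1 ha
      exact Or.inl ⟨ha2, hab, ha, hb, hM, h3⟩
    · have hb : Odd b := by
        rcases Nat.even_or_odd b with h4 | h4
        · exact absurd heven (Nat.not_even_iff_odd.2 (ha.add_even h4))
        · exact h4
      refine Or.inr ⟨ha, ?_, hb, ?_, hM, h3⟩
      · show 3 ≤ a
        obtain ⟨c, hc⟩ := ha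
        omega
      · show 3 ≤ b
        obtain ⟨c, hc⟩ := hb
        omega
  calc (BE V M).ncard ≤ (EB V M ∪ OSV V M).ncard :=
        Set.ncard_le_ncard hsub (hEf.union (OSV_fin V M))
    _ ≤ (EB V M).ncard + (OSV V M).ncard := Set.ncard_union_le _ _

theorem QE_le (V : Submodule (algebraicClosure ℚ ℝ) ℝ) (M : ℕ) :
    (QE M).ncard ≤ (EEW V M).ncard + (BE V M).ncard := by
  classical
  have hGf : (EEW V M).Finite := (idx_fin M).subset fun w hw => ⟨hw.1, hw.2.2.1, hw.2.2.2.1⟩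
  have hBQ : BE V M ⊆ QE M := fun p hp => hp.1
  have h1 : (QE M \ BE V M).ncard + (BE V M).ncard = (QE M).ncard :=
    Set.ncard_sdiff_add_ncard_of_subset hBQ (QE_fin M)
  have h2 : (QE M \ BE V M).ncard ≤ (EEW V M).ncard := by
    refine Set.ncard_le_ncard_of_injOn (fun p : ℕ × ℕ =>
      if mz [p.1, p.2] ∈ V then [p.2, p.1] else [p.1, p.2]) ?_ ?_ hGf
    · rintro ⟨a, b⟩ ⟨⟨⟨ha2, hab, hM⟩, heven⟩, hnB⟩
      simp only at ha2 hab hM heven
      show (if mz [a, b] ∈ V then [b, a] else [a, b]) ∈ EEW V M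
      by_cases h : mz [a, b] ∈ V
      · rw [if_pos h]
        have h3 : mz [b, a] ∉ V := fun h4 => hnB ⟨⟨⟨ha2, hab, hM⟩, heven⟩, h, h4⟩
        have hs : [b, a].sum = b + a := by simp
        refine ⟨rfl, ?_, ?_, ?_, h3⟩
        · rw [hs, add_comm]
          exact heven
        · rw [hs]
          omega
        · have hadm := adm_two b a (by omega) (by omega)
          exact ⟨hadm.1, hadm.2, rfl⟩
      · rw [if_neg h]
        have hs : [a, b].sum = a + b := by simp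
        refine ⟨rfl, ?_, ?_, ?_, h⟩
        · rw [hs]
          exact heven
        · rw [hs]
          omega
        · have hadm := adm_two a b (by omega) (by omega)
          exact ⟨hadm.1, hadm.2, rfl⟩
    · rintro ⟨a, b⟩ ⟨⟨⟨_, hab, _⟩, _⟩, _⟩ ⟨a', b'⟩ ⟨⟨⟨_, hab', _⟩, _⟩, _⟩ h
      simp only at hab hab' h
      split_ifs at h with h5 h6 h6 <;> simp only [List.cons.injEq, and_true] at h <;>
        obtain ⟨h7, h8⟩ := h <;> rw [Prod.mk.injEq] <;> omega
  omega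

/-- EVENV.  At least about half of the double zeta values of even weight at most `M` are
outside `V`. -/
theorem thm_EvenV (V : Submodule (algebraicClosure ℚ ℝ) ℝ)
    [Module.Finite (algebraicClosure ℚ ℝ) V] (M : ℕ) :
    ({w : List ℕ | w.length = 2 ∧ Even w.sum ∧ w.sum ≤ M ∧ w ∈ Idx w.sum}.ncard : ℝ) / 2 -
      3 / 4 * Real.sqrt (((Module.finrank (algebraicClosure ℚ ℝ) V : ℝ) + 1) * (M : ℝ) ^ 3) ≤
        ((EEW V M).ncard : ℝ) := by
  have h1 := QE_card M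
  have h2 := QE_le V M
  have h3 := BE_le V M
  have h4 := thm_EEV V M
  have hOO := thm_OOV V M
  rw [even_total]
  set k := Module.finrank (algebraicClosure ℚ ℝ) V with hk
  set O : Set (ℕ × ℕ) := OSV V M with hO
  set s : ℝ := Real.sqrt (((k : ℝ) + 1) * (M : ℝ) ^ 3) with hs
  have hk0 : (0 : ℝ) ≤ k := Nat.cast_nonneg k
  have hM0 : (0 : ℝ) ≤ M := Nat.cast_nonneg M
  have hs0 : 0 ≤ s := Real.sqrt_nonneg _
  have hs2 : s ^ 2 = ((k : ℝ) + 1) * (M : ℝ) ^ 3 := Real.sq_sqrt (by positivity)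
  have hM3 : (0 : ℝ) ≤ (M : ℝ) ^ 3 := by positivity
  have h5 : (O.ncard : ℝ) ≤ s / 2 := by
    have h6 : (((M - 4) / 2 : ℕ) : ℝ) ≤ M / 2 := by
      have h7 : 2 * ((M - 4) / 2) ≤ M := by omega
      have h8 : (2 : ℝ) * (((M - 4) / 2 : ℕ) : ℝ) ≤ M := by exact_mod_cast h7
      linarith
    have h7 : (O.ncard : ℝ) ^ 2 ≤ (2 * k + 2) * (((M - 4) / 2 : ℕ) : ℝ) ^ 3 := by
      exact_mod_cast hOO
    have h8 : (((M - 4) / 2 : ℕ) : ℝ) ^ 3 ≤ (M / 2 : ℝ) ^ 3 :=
      pow_le_pow_left₀ (Nat.cast_nonneg _) h6 3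
    have h9 : (O.ncard : ℝ) ^ 2 ≤ (s / 2) ^ 2 := by
      rw [div_pow, hs2]
      calc (O.ncard : ℝ) ^ 2 ≤ (2 * k + 2) * (((M - 4) / 2 : ℕ) : ℝ) ^ 3 := h7
        _ ≤ (2 * k + 2) * (M / 2 : ℝ) ^ 3 := mul_le_mul_of_nonneg_left h8 (by positivity)
        _ = (k + 1) * (M : ℝ) ^ 3 / 2 ^ 2 := by ring
    exact (pow_le_pow_iff_left₀ (Nat.cast_nonneg _) (by positivity) two_ne_zero).1 h9
  have hG0 : (0 : ℝ) ≤ ((EEW V M).ncard : ℝ) := Nat.cast_nonneg _
  have h1' : ((M / 2 * (M / 2 - 1) : ℕ) : ℝ) ≤ 2 * ((QE M).ncard : ℝ) := by exact_mod_cast h1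
  rcases Nat.lt_or_ge M (k + 1) with h10 | h10
  · have h11 : (M : ℝ) ≤ k + 1 := by exact_mod_cast h10.le
    have h12 : (M : ℝ) ^ 2 ≤ s := by
      have h13 : ((M : ℝ) ^ 2) ^ 2 ≤ s ^ 2 := by
        rw [hs2]
        calc ((M : ℝ) ^ 2) ^ 2 = M * (M : ℝ) ^ 3 := by ring
          _ ≤ (k + 1) * (M : ℝ) ^ 3 := mul_le_mul_of_nonneg_right h11 hM3
      exact (pow_le_pow_iff_left₀ (by positivity) hs0 two_ne_zero).1 h13
    have h20 : 4 * (M / 2 * (M / 2 - 1)) ≤ M ^ 2 := by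
      calc 4 * (M / 2 * (M / 2 - 1)) = (2 * (M / 2)) * (2 * (M / 2 - 1)) := by ring
        _ ≤ M * M := Nat.mul_le_mul (by omega) (by omega)
        _ = M ^ 2 := by ring
    have h21 : (4 : ℝ) * ((M / 2 * (M / 2 - 1) : ℕ) : ℝ) ≤ (M : ℝ) ^ 2 := by exact_mod_cast h20
    linarith
  · have h11 : (k : ℝ) + 1 ≤ M := by exact_mod_cast h10
    have h12 : ((k : ℝ) + 1) * M ≤ s := by
      have h13 : (((k : ℝ) + 1) * M) ^ 2 ≤ s ^ 2 := by
        rw [hs2]
        calc (((k : ℝ) + 1) * M) ^ 2 = (k + 1) * ((k + 1) * (M : ℝ) ^ 2) := by ring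
          _ ≤ (k + 1) * (M * (M : ℝ) ^ 2) := by
            refine mul_le_mul_of_nonneg_left ?_ (by positivity)
            exact mul_le_mul_of_nonneg_right h11 (by positivity)
          _ = (k + 1) * (M : ℝ) ^ 3 := by ring
      exact (pow_le_pow_iff_left₀ (by positivity) hs0 two_ne_zero).1 h13
    have h15 : ((QE M).ncard : ℝ) ≤ (EEW V M).ncard + (BE V M).ncard := by exact_mod_cast h2
    have h16 : ((BE V M).ncard : ℝ) ≤ (EB V M).ncard + O.ncard := by
      exact_mod_cast h3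
    have h17 : ((EB V M).ncard : ℝ) * 4 ≤ k * M := by exact_mod_cast h4
    nlinarith

end Pool.Agent.MZD
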