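import Pool.Agent.MZV2.Defs
import Pool.Agent.MZD.Half

set_option autoImplicit false

/-!
# At least about half of the double zeta values of odd weight are outside `V`
-/

namespace Pool.Agent.MZD

open Finset Filter
open Pool.Agent.Helper21 (mzv H zl Adm tendsto_zl)
open Pool.Agent.MZA Pool.Agent.MZA.MonAux

theorem TTV_finH (V : Submodule (algebraicClosure ℚ ℝ) ℝ) (M : ℕ) : (TTV V M).Finite := by
  have h1 : TTV V M ⊆ ⋃ N ∈ Finset.Icc 2 M, Idx N := by
    rintro w ⟨hl, hodd, hM, hw, _⟩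
    rw [Set.mem_iUnion₂]
    refine ⟨w.sum, ?_, hw⟩
    rw [Finset.mem_Icc]
    refine ⟨?_, hM⟩
    cases w with
    | nil => simp at hl
    | cons a t =>
      have := hw.2.1 a t rfl
      rw [List.sum_cons]
      omega
  refine Set.Finite.subset ?_ h1
  refine Set.Finite.biUnion (Finset.finite_toSet _) fun N hN => ?_
  rw [Finset.mem_coe, Finset.mem_Icc] at hN
  exact (thm_Cnt N hN.1).1

theorem EOS_finH (V : Submodule (algebraicClosure ℚ ℝ) ℝ) (M : ℕ) : (EOS V M).Finite := by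
  refine ((Finset.range (M + 1) ×ˢ Finset.range (M + 1)).finite_toSet).subset ?_
  rintro ⟨a, b⟩ ⟨_, _, _, h1, h2, _⟩
  rw [Finset.mem_coe, Finset.mem_product, Finset.mem_range, Finset.mem_range]
  simp only at h1 h2 ⊢
  omega

open Classical in
theorem half_count (V : Submodule (algebraicClosure ℚ ℝ) ℝ) (M : ℕ) :
    (PP M).ncard ≤ (TTV V M).ncard + (EOS V M).ncard := by
  set B : Set (ℕ × ℕ) := {p : ℕ × ℕ | (Odd p.1 ∧ 3 ≤ p.1 ∧ Even p.2 ∧ 2 ≤ p.2 ∧ p.1 + p.2 ≤ M) ∧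
      mz [p.1, p.2] ∈ V ∧ mz [p.2, p.1] ∈ V} with hB
  have hBP : B ⊆ PP M := fun p hp => hp.1
  have h1 : (PP M \ B).ncard + B.ncard = (PP M).ncard :=
    Set.ncard_sdiff_add_ncard_of_subset hBP (PP_fin M)
  have hBc : B.ncard ≤ (EOS V M).ncard := by
    refine Set.ncard_le_ncard_of_injOn (fun p : ℕ × ℕ => (p.1, p.1 + p.2)) ?_ ?_ (EOS_finH V M)
    · rintro ⟨a, b⟩ ⟨⟨ha, ha3, hb, hb2, hM2⟩, h3, h4⟩
      simp only at ha ha3 hb hb2 hM2 h3 h4
      refine ⟨ha, ha3, ha.add_even hb, ?_, hM2, ?_⟩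
      · show a + 2 ≤ a + b
        omega
      · show zl [a + b - a] * zl [a] - zl [a + b] ∈ V
        have h5 := stuffle a b (by omega) (by omega)
        rw [mz_two a b (by omega) (by omega)] at h3
        rw [mz_two b a (by omega) (by omega)] at h4
        rw [Nat.add_sub_cancel_left]
        have h6 := V.add_mem h3 h4
        rw [← h5] at h6
        convert h6 using 1
        ring
    · rintro ⟨a, b⟩ _ ⟨a', b'⟩ _ h
      simp only [Prod.mk.injEq] at h
      obtain ⟨e1, e2⟩ := h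
      rw [e1] at e2
      rw [e1, Nat.add_left_cancel e2]
  have h2 : (PP M \ B).ncard ≤ (TTV V M).ncard := by
    refine Set.ncard_le_ncard_of_injOn (fun p : ℕ × ℕ =>
      if mz [p.1, p.2] ∈ V then [p.2, p.1] else [p.1, p.2]) ?_ ?_ (TTV_finH V M)
    · rintro ⟨a, b⟩ ⟨⟨ha, ha3, hb, hb2, hM2⟩, hnB⟩
      simp only at ha ha3 hb hb2 hM2
      show (if mz [a, b] ∈ V then [b, a] else [a, b]) ∈ TTV V M
      by_cases h : mz [a, b] ∈ V
      · rw [if_pos h]
        have h3 : mz [b, a] ∉ V := fun h4 =>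
          hnB ⟨⟨ha, ha3, hb, hb2, hM2⟩, h, h4⟩
        have hs : [b, a].sum = b + a := by simp
        refine ⟨rfl, ?_, ?_, ?_, h3⟩
        · rw [hs]
          exact hb.add_odd ha
        · rw [hs]
          omega
        · have hadm := adm_two b a hb2 (by omega)
          exact ⟨hadm.1, hadm.2, rfl⟩
      · rw [if_neg h]
        have hs : [a, b].sum = a + b := by simp
        refine ⟨rfl, ?_, ?_, ?_, h⟩
        · rw [hs]
          exact ha.add_even hb
        · rw [hs]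
          omega
        · have hadm := adm_two a b (by omega) (by omega)
          exact ⟨hadm.1, hadm.2, rfl⟩
    · rintro ⟨a, b⟩ ⟨⟨ha, _, hb, _, _⟩, _⟩ ⟨a', b'⟩ ⟨⟨ha', _, hb', _, _⟩, _⟩ h
      simp only at ha hb ha' hb' h
      split_ifs at h with h5 h6 h6
      · simp only [List.cons.injEq, and_true] at h
        rw [h.1, h.2]
      · simp only [List.cons.injEq, and_true] at h
        rw [h.1] at hb
        exact absurd hb (Nat.not_even_iff_odd.2 ha')
      · simp only [List.cons.injEq, and_true] at h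
        rw [h.1] at ha
        exact absurd hb' (Nat.not_even_iff_odd.2 ha)
      · simp only [List.cons.injEq, and_true] at h
        rw [h.1, h.2]
  omega

/-- HALF for a finite-dimensional space `V`. -/
theorem thm_HalfV (V : Submodule (algebraicClosure ℚ ℝ) ℝ)
    [Module.Finite (algebraicClosure ℚ ℝ) V] (M : ℕ) (hM : 1 ≤ M)
    (hEO : (EOS V M).ncard ^ 2 ≤
      (Module.finrank (algebraicClosure ℚ ℝ) V + 2) * ((M - 3) / 2) ^ 3) :
    ((M : ℝ) - 2) * (M - 4) / 8 - (1 / 2) *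
      √(((Module.finrank (algebraicClosure ℚ ℝ) V : ℝ) + 1) * (M : ℝ) ^ 3) ≤
      ((TTV V M).ncard : ℝ) := by
  set k := Module.finrank (algebraicClosure ℚ ℝ) V with hk
  have hk0 : (0 : ℝ) ≤ k := Nat.cast_nonneg k
  have hM0 : (1 : ℝ) ≤ M := by exact_mod_cast hM
  have hs0 : 0 ≤ √(((k : ℝ) + 1) * (M : ℝ) ^ 3) := Real.sqrt_nonneg _
  have hT0 : (0 : ℝ) ≤ ((TTV V M).ncard : ℝ) := Nat.cast_nonneg _
  have h1 := half_count V M
  have h2 : ((EOS V M).ncard : ℝ) ≤ (1 / 2) * √(((k : ℝ) + 1) * (M : ℝ) ^ 3) := by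
    have h3 : ((EOS V M).ncard : ℝ) ^ 2 ≤ ((k : ℝ) + 2) * ((M : ℝ) / 2) ^ 3 := by
      have h4 : (((EOS V M).ncard ^ 2 : ℕ) : ℝ) ≤ (((k + 2) * ((M - 3) / 2) ^ 3 : ℕ) : ℝ) := by
        exact_mod_cast hEO
      push_cast at h4
      refine h4.trans ?_
      apply mul_le_mul_of_nonneg_left _ (by positivity)
      apply pow_le_pow_left₀ (by positivity)
      have h5 : (((M - 3) / 2 : ℕ) : ℝ) ≤ ((M - 3 : ℕ) : ℝ) / 2 := Nat.cast_div_le
      have h6 : ((M - 3 : ℕ) : ℝ) ≤ M := by exact_mod_cast Nat.sub_le _ _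
      linarith
    have h7 : ((k : ℝ) + 2) * ((M : ℝ) / 2) ^ 3 ≤
        ((1 / 2) * √(((k : ℝ) + 1) * (M : ℝ) ^ 3)) ^ 2 := by
      rw [mul_pow, Real.sq_sqrt (by positivity)]
      have : (0 : ℝ) ≤ (M : ℝ) ^ 3 := by positivity
      nlinarith
    exact le_of_sq_le_sq (h3.trans h7) (by positivity)
  have h8 : ((PP M).ncard : ℝ) ≤ (TTV V M).ncard + (EOS V M).ncard := by exact_mod_cast h1
  rcases Nat.lt_or_ge M 4 with hM4 | hM4
  · have h9 : ((M : ℝ) - 2) * (M - 4) / 8 ≤ 1 / 2 := by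
      interval_cases M <;> norm_num
    have h10 : 1 ≤ √(((k : ℝ) + 1) * (M : ℝ) ^ 3) := by
      rw [Real.one_le_sqrt]
      have : (1 : ℝ) ≤ (M : ℝ) ^ 3 := one_le_pow₀ hM0
      nlinarith
    linarith
  · have h3 := PP_card M hM
    set K := (M - 1) / 2 with hK
    have h4 : M - 2 ≤ 2 * K := by omega
    have h6 : M - 4 ≤ 2 * (K - 1) := by omega
    have h5 : (M - 2) * (M - 4) ≤ 8 * (PP M).ncard := by
      calc (M - 2) * (M - 4) ≤ (2 * K) * (2 * (K - 1)) := Nat.mul_le_mul h4 h6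
        _ = 4 * (K * (K - 1)) := by ring
        _ ≤ 8 * (PP M).ncard := by omega
    have h7 : ((M : ℝ) - 2) * (M - 4) ≤ 8 * ((PP M).ncard : ℝ) := by
      have h8 : (((M - 2) * (M - 4) : ℕ) : ℝ) ≤ ((8 * (PP M).ncard : ℕ) : ℝ) := by exact_mod_cast h5
      rw [Nat.cast_mul, Nat.cast_sub (by omega), Nat.cast_sub hM4] at h8
      push_cast at h8
      exact h8
    linarith

end Pool.Agent.MZD
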