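import Pool.Agent.MZV2.EvenV
import Pool.Agent.MZV2.HalfV

set_option autoImplicit false

/-!
# MZV2 Fin: at least half for both parities of the weight
-/

namespace Pool.Agent.MZD

open Pool.Agent.Helper21 (mzv H zl Adm tendsto_zl)
open Pool.Agent.MZA Pool.Agent.MZA.MonAux

/-- ODDV.  At least about half of the double zeta values of odd weight at most `M` are
outside `V`. -/
theorem thm_OddV (V : Submodule (algebraicClosure ℚ ℝ) ℝ)
    [Module.Finite (algebraicClosure ℚ ℝ) V] (M : ℕ) :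
    ({w : List ℕ | w.length = 2 ∧ Odd w.sum ∧ w.sum ≤ M ∧ w ∈ Idx w.sum}.ncard : ℝ) / 2 -
      3 / 4 * Real.sqrt (((Module.finrank (algebraicClosure ℚ ℝ) V : ℝ) + 1) * (M : ℝ) ^ 3) ≤
        ((TTV V M).ncard : ℝ) := by
  rw [total]
  have h := fun hM : 1 ≤ M => thm_HalfV V M hM (thm_EOV V M)
  set k := Module.finrank (algebraicClosure ℚ ℝ) V with hk
  set s : ℝ := Real.sqrt (((k : ℝ) + 1) * (M : ℝ) ^ 3) with hs
  have hk0 : (0 : ℝ) ≤ k := Nat.cast_nonneg k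
  have hM0 : (0 : ℝ) ≤ M := Nat.cast_nonneg M
  have hs0 : 0 ≤ s := Real.sqrt_nonneg _
  have hs2 : s ^ 2 = ((k : ℝ) + 1) * (M : ℝ) ^ 3 := Real.sq_sqrt (by positivity)
  have hG0 : (0 : ℝ) ≤ ((TTV V M).ncard : ℝ) := Nat.cast_nonneg _
  rcases Nat.lt_or_ge M 4 with h4 | h4
  · have h5 : ((M - 1) / 2) ^ 2 ≤ 1 := by
      have h6 : (M - 1) / 2 ≤ 1 := by omega
      calc ((M - 1) / 2) ^ 2 ≤ 1 ^ 2 := Nat.pow_le_pow_left h6 2
        _ = 1 := by norm_num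
    rcases Nat.lt_or_ge M 3 with h6 | h6
    · have h7 : ((M - 1) / 2) ^ 2 = 0 := by
        have h8 : (M - 1) / 2 = 0 := by omega
        rw [h8]
        norm_num
      rw [h7]
      push_cast
      linarith
    · have h7 : (3 : ℝ) ≤ M := by exact_mod_cast h6
      have h8 : (1 : ℝ) ≤ s := by
        rw [hs]
        apply Real.one_le_sqrt.2
        have h9 : (27 : ℝ) ≤ (M : ℝ) ^ 3 := by
          calc (27 : ℝ) = 3 ^ 3 := by norm_num
            _ ≤ (M : ℝ) ^ 3 := pow_le_pow_left₀ (by norm_num) h7 3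
        nlinarith
      have h9 : ((((M - 1) / 2) ^ 2 : ℕ) : ℝ) ≤ 1 := by exact_mod_cast h5
      linarith
  · have h5 : (4 : ℝ) ≤ M := by exact_mod_cast h4
    have h6 := h (by omega)
    have h7 : 2 * (M : ℝ) ≤ s := by
      have h8 : (2 * (M : ℝ)) ^ 2 ≤ s ^ 2 := by
        rw [hs2]
        calc (2 * (M : ℝ)) ^ 2 = 4 * (M : ℝ) ^ 2 := by ring
          _ ≤ M * (M : ℝ) ^ 2 := mul_le_mul_of_nonneg_right h5 (by positivity)
          _ ≤ (k + 1) * (M * (M : ℝ) ^ 2) := by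
            have h9 : (0 : ℝ) ≤ M * (M : ℝ) ^ 2 := by positivity
            nlinarith
          _ = (k + 1) * (M : ℝ) ^ 3 := by ring
      exact (pow_le_pow_iff_left₀ (by positivity) hs0 two_ne_zero).1 h8
    have h8 : 4 * ((M - 1) / 2) ^ 2 ≤ (M - 1) ^ 2 := by
      calc 4 * ((M - 1) / 2) ^ 2 = (2 * ((M - 1) / 2)) ^ 2 := by ring
        _ ≤ (M - 1) ^ 2 := Nat.pow_le_pow_left (by omega) 2
    have h9 : (4 : ℝ) * ((((M - 1) / 2) ^ 2 : ℕ) : ℝ) ≤ ((M : ℝ) - 1) ^ 2 := by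
      have h10 : ((M - 1 : ℕ) : ℝ) = M - 1 := by
        rw [Nat.cast_sub (by omega)]
        norm_num
      rw [← h10]
      exact_mod_cast h8
    nlinarith

/-- FIN.  For both parities of the weight at least about half of the double zeta values of weight
at most `M` are outside `V`. -/
theorem thm_Fin (V : Submodule (algebraicClosure ℚ ℝ) ℝ)
    [Module.Finite (algebraicClosure ℚ ℝ) V] (M e : ℕ) :
    ({w : List ℕ | w.length = 2 ∧ w.sum ≡ e [MOD 2] ∧ w.sum ≤ M ∧ w ∈ Idx w.sum}.ncard : ℝ) / 2 -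
      3 / 4 * Real.sqrt (((Module.finrank (algebraicClosure ℚ ℝ) V : ℝ) + 1) * (M : ℝ) ^ 3) ≤
        ({w : List ℕ | w.length = 2 ∧ w.sum ≡ e [MOD 2] ∧ w.sum ≤ M ∧ w ∈ Idx w.sum ∧
          mz w ∉ V}.ncard : ℝ) := by
  rcases Nat.even_or_odd e with he | he
  · have h : ∀ w : List ℕ, w.sum ≡ e [MOD 2] ↔ Even w.sum := by
      intro w
      rw [Nat.even_iff, Nat.ModEq, Nat.even_iff.1 he]
    have h1 := thm_EvenV V M
    have e1 : {w : List ℕ | w.length = 2 ∧ w.sum ≡ e [MOD 2] ∧ w.sum ≤ M ∧ w ∈ Idx w.sum} =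
        {w : List ℕ | w.length = 2 ∧ Even w.sum ∧ w.sum ≤ M ∧ w ∈ Idx w.sum} := by
      ext w
      rw [Set.mem_ofPred_eq, Set.mem_ofPred_eq, h w]
    have e2 : {w : List ℕ | w.length = 2 ∧ w.sum ≡ e [MOD 2] ∧ w.sum ≤ M ∧ w ∈ Idx w.sum ∧
          mz w ∉ V} = EEW V M := by
      ext w
      rw [EEW, Set.mem_ofPred_eq, Set.mem_ofPred_eq, h w]
    rw [e1, e2]
    exact h1
  · have h : ∀ w : List ℕ, w.sum ≡ e [MOD 2] ↔ Odd w.sum := by
      intro w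
      rw [Nat.odd_iff, Nat.ModEq, Nat.odd_iff.1 he]
    have h1 := thm_OddV V M
    have e1 : {w : List ℕ | w.length = 2 ∧ w.sum ≡ e [MOD 2] ∧ w.sum ≤ M ∧ w ∈ Idx w.sum} =
        {w : List ℕ | w.length = 2 ∧ Odd w.sum ∧ w.sum ≤ M ∧ w ∈ Idx w.sum} := by
      ext w
      rw [Set.mem_ofPred_eq, Set.mem_ofPred_eq, h w]
    have e2 : {w : List ℕ | w.length = 2 ∧ w.sum ≡ e [MOD 2] ∧ w.sum ≤ M ∧ w ∈ Idx w.sum ∧
          mz w ∉ V} = TTV V M := by
      ext w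
      rw [TTV, Set.mem_ofPred_eq, Set.mem_ofPred_eq, h w]
    rw [e1, e2]
    exact h1

end Pool.Agent.MZD
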