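import Mathlib

set_option autoImplicit false

/-!
# Two rows: a subspace of dimension at least two of the coefficient vectors
-/

namespace Pool.Agent.MZD

open Finset Polynomial

variable {K : Type*} [Field K]

/-- the polynomial with the coefficients `l j * r j` -/
noncomputable def pol (J : Finset ℕ) (r l : ℕ → K) : K[X] := ∑ j ∈ J, C (l j * r j) * X ^ j

theorem pol_coeff (J : Finset ℕ) (r l : ℕ → K) (m : ℕ) (hl : ∀ j, j ∉ J → l j = 0) :
    (pol J r l).coeff m = l m * r m := by
  classical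
  unfold pol
  rw [finsetSum_coeff]
  simp only [coeff_C_mul, coeff_X_pow, mul_ite, mul_one, mul_zero]
  rw [Finset.sum_ite_eq J m]
  split_ifs with h
  · rfl
  · rw [hl m h, zero_mul]

theorem pol_deg (J : Finset ℕ) (r l : ℕ → K) (m : ℕ) (hl : ∀ j, m < j → l j = 0) :
    (pol J r l).natDegree ≤ m := by
  unfold pol
  refine natDegree_sum_le_of_forall_le _ _ fun j _ => ?_
  rcases Nat.lt_or_ge m j with h | h
  · rw [hl j h, zero_mul, C_0, zero_mul, natDegree_zero]
    exact Nat.zero_le _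
  · exact (natDegree_C_mul_X_pow_le _ _).trans h

/-- P. Two rows. -/
theorem two_rows (J : Finset ℕ) (r1 r2 : ℕ → K)
    (hr : ∀ i ∈ J, ∀ j ∈ J, i ≠ j → r1 i * r2 j ≠ r1 j * r2 i)
    {W : Type*} [AddCommGroup W] [Module K W] [Module.Finite K W] (F : (ℕ → K) →ₗ[K] W)
    (hJ : Module.finrank K W + 2 ≤ J.card) :
    ∃ l m : ℕ → K, F l = 0 ∧ F m = 0 ∧
      (∀ j, j ∉ J → l j = 0) ∧ (∀ j, j ∉ J → m j = 0) ∧
      pol J r1 l * pol J r2 m ≠ pol J r1 m * pol J r2 l := by
  classical
  -- vectors supported in `J`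
  let ext : (J → K) →ₗ[K] (ℕ → K) :=
    { toFun := fun v j => if h : j ∈ J then v ⟨j, h⟩ else 0
      map_add' := fun v w => by
        funext j
        simp only [Pi.add_apply]
        split_ifs
        · rfl
        · rw [add_zero]
      map_smul' := fun c v => by
        funext j
        simp only [Pi.smul_apply, RingHom.id_apply]
        split_ifs
        · rfl
        · rw [smul_zero] }
  have hext0 : ∀ v j, j ∉ J → ext v j = 0 := fun v j h => by
    show (if h : j ∈ J then v ⟨j, h⟩ else 0) = 0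
    rw [dif_neg h]
  have hextI : ∀ v (j : J), ext v j = v j := fun v j => by
    show (if h : (j : ℕ) ∈ J then v ⟨j, h⟩ else 0) = v j
    rw [dif_pos j.2]
  -- nonzero solutions, also with one more condition
  have hsol : ∀ i : ℕ, ∃ v : J → K, v ≠ 0 ∧ F (ext v) = 0 ∧ ext v i = 0 := by
    intro i
    let G : (J → K) →ₗ[K] (W × K) := (F ∘ₗ ext).prod (LinearMap.proj i ∘ₗ ext)
    have hlt : Module.finrank K (W × K) < Module.finrank K (J → K) := by
      rw [Module.finrank_prod, Module.finrank_self, Module.finrank_fintype_fun_eq_card,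
        Fintype.card_coe]
      omega
    obtain ⟨v, hv, hne⟩ := (Submodule.ne_bot_iff _).mp
      (LinearMap.ker_ne_bot_of_finrank_lt (f := G) hlt)
    refine ⟨v, hne, ?_, ?_⟩
    · exact congrArg Prod.fst (LinearMap.mem_ker.mp hv)
    · exact congrArg Prod.snd (LinearMap.mem_ker.mp hv)
  -- a nonzero solution with the largest last place
  let Q : ℕ → Prop := fun i => ∃ v : J → K, F (ext v) = 0 ∧ ext v i ≠ 0
  have hQJ : ∀ i, Q i → i ∈ J := by
    rintro i ⟨v, -, h⟩
    by_contra hc
    exact h (hext0 v i hc)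
  have hne : (J.filter Q).Nonempty := by
    obtain ⟨v, h1, h2, -⟩ := hsol 0
    obtain ⟨j, hj⟩ := Function.ne_iff.mp h1
    refine ⟨j, Finset.mem_filter.mpr ⟨j.2, v, h2, ?_⟩⟩
    rw [hextI]
    exact hj
  set i := (J.filter Q).max' hne with hi
  have hiQ : Q i := (Finset.mem_filter.mp (Finset.max'_mem _ hne)).2
  have hmax : ∀ v : J → K, F (ext v) = 0 → ∀ j, i < j → ext v j = 0 := by
    intro v hv j hj
    by_contra hc
    have h1 : Q j := ⟨v, hv, hc⟩
    have h2 := Finset.le_max' (J.filter Q) j (Finset.mem_filter.mpr ⟨hQJ j h1, h1⟩)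
    omega
  obtain ⟨v, hv1, hv2⟩ := hiQ
  obtain ⟨w, hw1, hw2, hw3⟩ := hsol i
  have hne2 : (J.filter fun j => ext w j ≠ 0).Nonempty := by
    obtain ⟨j, hj⟩ := Function.ne_iff.mp hw1
    refine ⟨j, Finset.mem_filter.mpr ⟨j.2, ?_⟩⟩
    rw [hextI]
    exact hj
  set j := (J.filter fun j => ext w j ≠ 0).max' hne2 with hj
  have hjm := Finset.mem_filter.mp (Finset.max'_mem _ hne2)
  have hjmax : ∀ a, j < a → ext w a = 0 := by
    intro a ha
    by_contra hc
    have h1 : a ∈ J := by
      by_contra h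
      exact hc (hext0 w a h)
    have h2 := Finset.le_max' (J.filter fun j => ext w j ≠ 0) a (Finset.mem_filter.mpr ⟨h1, hc⟩)
    omega
  have hij : i ≠ j := by
    intro h
    apply hjm.2
    rw [← hj, ← h]
    exact hw3
  refine ⟨ext v, ext w, hv1, hw2, hext0 v, hext0 w, fun heq => ?_⟩
  have h1 : (pol J r1 (ext v) * pol J r2 (ext w)).coeff (i + j) =
      (pol J r1 (ext w) * pol J r2 (ext v)).coeff (i + j) := by rw [heq]
  rw [coeff_mul_add_eq_of_natDegree_le (pol_deg J r1 _ i (hmax v hv1)) (pol_deg J r2 _ j hjmax),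
    add_comm i j,
    coeff_mul_add_eq_of_natDegree_le (pol_deg J r1 _ j hjmax) (pol_deg J r2 _ i (hmax v hv1)),
    pol_coeff J r1 _ i (hext0 v), pol_coeff J r2 _ j (hext0 w), pol_coeff J r1 _ j (hext0 w),
    pol_coeff J r2 _ i (hext0 v)] at h1
  have h2 : ext v i * ext w j * (r1 i * r2 j - r1 j * r2 i) = 0 := by
    linear_combination h1
  rcases mul_eq_zero.mp h2 with h3 | h3
  · rcases mul_eq_zero.mp h3 with h4 | h4
    · exact hv2 h4
    · exact hjm.2 h4
  · exact hr i (hQJ i ⟨v, hv1, hv2⟩) j hjm.1 hij (sub_eq_zero.mp h3)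

end Pool.Agent.MZD
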