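import Pool.Agent.MZV2.Pol
import Pool.Agent.MZV2.Defs

set_option autoImplicit false

/-!
# No large complete bipartite graphs of bad pairs
-/

namespace Pool.Agent.MZD

open Finset Polynomial
open Pool.Agent.Helper21 (mzv H zl Adm tendsto_zl)
open Pool.Agent.MZA Pool.Agent.MZA.MonAux

/-- `ζ(N) / π^N` for even `N ≥ 2` -/
noncomputable def qz (N : ℕ) : algebraicClosure ℚ ℝ := by
  classical
  exact if h : ∃ q : ℚ, zl [N] = (q : ℝ) * Real.pi ^ N then algebraMap ℚ _ h.choose else 0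

theorem qz_spec {N : ℕ} (h2 : 2 ≤ N) (he : Even N) : zl [N] = (qz N : ℝ) * Real.pi ^ N := by
  classical
  obtain ⟨i, hi⟩ := he
  obtain ⟨q, -, hq⟩ := thm_Zev i (by omega)
  have e : 2 * i = N := by omega
  rw [e] at hq
  have hex : ∃ q : ℚ, zl [N] = (q : ℝ) * Real.pi ^ N := ⟨q, hq⟩
  have h1 : qz N = algebraMap ℚ _ hex.choose := by
    unfold qz
    rw [dif_pos hex]
  rw [h1]
  exact hex.choose_spec

theorem qz_ne {x y x' y' : ℕ} (hx : 2 ≤ x) (hy : 2 ≤ y) (hx' : 2 ≤ x') (hy' : 2 ≤ y')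
    (ex : Even x) (ey : Even y) (ex' : Even x') (ey' : Even y') (hs : x + y = x' + y')
    (h1 : x ≠ x') (h2 : x ≠ y') : qz x * qz y ≠ qz x' * qz y' := by
  intro h
  have h3 : (qz x : ℝ) * (qz y : ℝ) = (qz x' : ℝ) * (qz y' : ℝ) := by exact_mod_cast congrArg Subtype.val h
  have h4 : zl [x] * zl [x + y - x] = zl [x'] * zl [x + y - x'] := by
    have e1 : x + y - x = y := by omega
    have e2 : x + y - x' = y' := by omega
    rw [e1, e2, qz_spec hx ex, qz_spec hy ey, qz_spec hx' ex', qz_spec hy' ey']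
    have e3 : Real.pi ^ x * Real.pi ^ y = Real.pi ^ x' * Real.pi ^ y' := by
      rw [← pow_add, ← pow_add, hs]
    linear_combination (Real.pi ^ x * Real.pi ^ y) * h3 + ((qz x' : ℝ) * (qz y' : ℝ)) * e3
  rcases oo_prod (x + y) x x' hx hx' (by omega) (by omega) h4 with h5 | h5
  · exact h1 h5
  · apply h2
    omega

theorem aev (J : Finset ℕ) (r l : ℕ → algebraicClosure ℚ ℝ) :
    aeval Real.pi (pol J r l) = ∑ j ∈ J, ((l j : ℝ) * (r j : ℝ)) * Real.pi ^ j := by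
  unfold pol
  rw [map_sum]
  refine Finset.sum_congr rfl fun j _ => ?_
  rw [map_mul, aeval_C, map_pow, aeval_X]
  rfl

theorem pi_tr : Transcendental (algebraicClosure ℚ ℝ) Real.pi :=
  Pool.Agent.Helper21.transcendental_pi.algebraicClosure

/-- the values at `π` of the two products are different -/
theorem pol_pi {J : Finset ℕ} {r1 r2 l m : ℕ → algebraicClosure ℚ ℝ}
    (h : pol J r1 l * pol J r2 m ≠ pol J r1 m * pol J r2 l) :
    aeval Real.pi (pol J r1 l) * aeval Real.pi (pol J r2 m) ≠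
      aeval Real.pi (pol J r1 m) * aeval Real.pi (pol J r2 l) := by
  intro h2
  apply pi_tr
  refine ⟨pol J r1 l * pol J r2 m - pol J r1 m * pol J r2 l, sub_ne_zero.mpr h, ?_⟩
  rw [map_sub, map_mul, map_mul, h2, sub_self]

variable (V : Submodule (algebraicClosure ℚ ℝ) ℝ)

/-- a linear combination of elements of `V` -/
noncomputable def comb (J : Finset ℕ) (X : ℕ → V) :
    (ℕ → algebraicClosure ℚ ℝ) →ₗ[algebraicClosure ℚ ℝ] V :=
  ∑ j ∈ J, (LinearMap.proj j : (ℕ → algebraicClosure ℚ ℝ) →ₗ[algebraicClosure ℚ ℝ]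
    algebraicClosure ℚ ℝ).smulRight (X j)

theorem comb_apply (J : Finset ℕ) (X : ℕ → V) (l : ℕ → algebraicClosure ℚ ℝ) :
    ((comb V J X l : V) : ℝ) = ∑ j ∈ J, (l j : ℝ) * ((X j : V) : ℝ) := by
  unfold comb
  rw [LinearMap.sum_apply, Submodule.coe_sum]
  refine Finset.sum_congr rfl fun j _ => ?_
  rw [LinearMap.smulRight_apply, LinearMap.proj_apply, Submodule.coe_smul]
  rfl

variable [Module.Finite (algebraicClosure ℚ ℝ) V]

theorem oo_rows {a₁ a₂ : ℕ} (o1 : Odd a₁) (o2 : Odd a₂) (h1 : 3 ≤ a₁) (h2 : 3 ≤ a₂) (hne : a₁ ≠ a₂)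
    (Q : Finset ℕ) (hQ : ∀ b ∈ Q, Odd b ∧ 3 ≤ b ∧ zl [a₁] * zl [b] - zl [a₁ + b] ∈ V ∧
      zl [a₂] * zl [b] - zl [a₂ + b] ∈ V) :
    Q.card ≤ 2 * Module.finrank (algebraicClosure ℚ ℝ) V + 1 := by
  classical
  by_contra hcon
  push Not at hcon
  have hX : ∀ a : ℕ, (∀ b ∈ Q, zl [a] * zl [b] - zl [a + b] ∈ V) →
      ∃ X : ℕ → V, ∀ b ∈ Q, ((X b : V) : ℝ) = zl [a] * zl [b] - zl [a + b] := by
    intro a ha
    refine ⟨fun b => if h : b ∈ Q then ⟨_, ha b h⟩ else 0, fun b hb => ?_⟩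
    simp only [dif_pos hb]
  obtain ⟨X, hX1⟩ := hX a₁ (fun b hb => (hQ b hb).2.2.1)
  obtain ⟨Y, hY1⟩ := hX a₂ (fun b hb => (hQ b hb).2.2.2)
  obtain ⟨l, m, hl, hm, -, -, hneq⟩ := two_rows Q (fun b => qz (a₁ + b)) (fun b => qz (a₂ + b))
    (fun i hi j hj hij => by
      obtain ⟨oi, hi3, -⟩ := hQ i hi
      obtain ⟨oj, hj3, -⟩ := hQ j hj
      exact qz_ne (by omega) (by omega) (by omega) (by omega) (o1.add_odd oi) (o2.add_odd oj)
        (o1.add_odd oj) (o2.add_odd oi) (by omega) (by omega) (by omega))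
    ((comb V Q X).prod (comb V Q Y)) (by rw [Module.finrank_prod]; omega)
  have key : ∀ (a : ℕ) (Z : ℕ → V) (k : ℕ → algebraicClosure ℚ ℝ), Odd a → 3 ≤ a →
      (∀ b ∈ Q, ((Z b : V) : ℝ) = zl [a] * zl [b] - zl [a + b]) → comb V Q Z k = 0 →
      zl [a] * ∑ b ∈ Q, (k b : ℝ) * zl [b] =
        Real.pi ^ a * aeval Real.pi (pol Q (fun b => qz (a + b)) k) := by
    intro a Z k oa ha hZ hk
    have h3 := comb_apply V Q Z k
    rw [hk, Submodule.coe_zero] at h3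
    have h4 : ∑ b ∈ Q, (k b : ℝ) * ((Z b : V) : ℝ) =
        zl [a] * ∑ b ∈ Q, (k b : ℝ) * zl [b] -
          Real.pi ^ a * aeval Real.pi (pol Q (fun b => qz (a + b)) k) := by
      rw [aev, Finset.mul_sum, Finset.mul_sum, ← Finset.sum_sub_distrib]
      refine Finset.sum_congr rfl fun b hb => ?_
      obtain ⟨ob, hb3, -⟩ := hQ b hb
      rw [hZ b hb, qz_spec (N := a + b) (by omega) (oa.add_odd ob), pow_add]
      ring
    linarith
  have l1 := key a₁ X l o1 h1 hX1 (congrArg Prod.fst hl)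
  have l2 := key a₂ Y l o2 h2 hY1 (congrArg Prod.snd hl)
  have m1 := key a₁ X m o1 h1 hX1 (congrArg Prod.fst hm)
  have m2 := key a₂ Y m o2 h2 hY1 (congrArg Prod.snd hm)
  apply pol_pi hneq
  have hpi : Real.pi ^ a₁ * Real.pi ^ a₂ ≠ 0 :=
    mul_ne_zero (pow_ne_zero _ Real.pi_ne_zero) (pow_ne_zero _ Real.pi_ne_zero)
  apply mul_left_cancel₀ hpi
  have e1 : Real.pi ^ a₁ * Real.pi ^ a₂ * (aeval Real.pi (pol Q (fun b => qz (a₁ + b)) l) *
      aeval Real.pi (pol Q (fun b => qz (a₂ + b)) m)) =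
      (Real.pi ^ a₁ * aeval Real.pi (pol Q (fun b => qz (a₁ + b)) l)) *
      (Real.pi ^ a₂ * aeval Real.pi (pol Q (fun b => qz (a₂ + b)) m)) := by ring
  have e2 : Real.pi ^ a₁ * Real.pi ^ a₂ * (aeval Real.pi (pol Q (fun b => qz (a₁ + b)) m) *
      aeval Real.pi (pol Q (fun b => qz (a₂ + b)) l)) =
      (Real.pi ^ a₁ * aeval Real.pi (pol Q (fun b => qz (a₁ + b)) m)) *
      (Real.pi ^ a₂ * aeval Real.pi (pol Q (fun b => qz (a₂ + b)) l)) := by ring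
  rw [e1, e2, ← l1, ← m2, ← m1, ← l2]
  ring

theorem eo_rows {b₁ b₂ : ℕ} (o1 : Odd b₁) (o2 : Odd b₂) (h1 : 3 ≤ b₁) (h2 : 3 ≤ b₂) (hne : b₁ ≠ b₂)
    (N : Finset ℕ) (hN : ∀ n ∈ N, Odd n ∧ b₁ + 2 ≤ n ∧ b₂ + 2 ≤ n ∧
      zl [n - b₁] * zl [b₁] - zl [n] ∈ V ∧ zl [n - b₂] * zl [b₂] - zl [n] ∈ V) :
    N.card ≤ Module.finrank (algebraicClosure ℚ ℝ) V + 1 := by
  classical
  by_contra hcon
  push Not at hcon
  obtain ⟨Z, hZ⟩ : ∃ Z : ℕ → V, ∀ n ∈ N, ((Z n : V) : ℝ) =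
      (zl [n - b₁] * zl [b₁] - zl [n]) - (zl [n - b₂] * zl [b₂] - zl [n]) := by
    refine ⟨fun n => if h : n ∈ N then ⟨_, Submodule.sub_mem V (hN n h).2.2.2.1 (hN n h).2.2.2.2⟩
      else 0, fun n hn => ?_⟩
    simp only [dif_pos hn]
  obtain ⟨l, m, hl, hm, -, -, hneq⟩ := two_rows N (fun n => qz (n - b₁)) (fun n => qz (n - b₂))
    (fun i hi j hj hij => by
      obtain ⟨oi, hi1, hi2, -⟩ := hN i hi
      obtain ⟨oj, hj1, hj2, -⟩ := hN j hj
      exact qz_ne (by omega) (by omega) (by omega) (by omega) (Nat.Odd.sub_odd oi o1)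
        (Nat.Odd.sub_odd oj o2) (Nat.Odd.sub_odd oj o1) (Nat.Odd.sub_odd oi o2) (by omega)
        (by omega) (by omega))
    (comb V N Z) (by omega)
  have key : ∀ (k : ℕ → algebraicClosure ℚ ℝ), comb V N Z k = 0 →
      (zl [b₁] / Real.pi ^ b₁) * aeval Real.pi (pol N (fun n => qz (n - b₁)) k) =
        (zl [b₂] / Real.pi ^ b₂) * aeval Real.pi (pol N (fun n => qz (n - b₂)) k) := by
    intro k hk
    have h3 := comb_apply V N Z k
    rw [hk, Submodule.coe_zero] at h3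
    have h4 : ∑ n ∈ N, (k n : ℝ) * ((Z n : V) : ℝ) =
        (zl [b₁] / Real.pi ^ b₁) * aeval Real.pi (pol N (fun n => qz (n - b₁)) k) -
        (zl [b₂] / Real.pi ^ b₂) * aeval Real.pi (pol N (fun n => qz (n - b₂)) k) := by
      rw [aev, aev, Finset.mul_sum, Finset.mul_sum, ← Finset.sum_sub_distrib]
      refine Finset.sum_congr rfl fun n hn => ?_
      obtain ⟨on, hn1, hn2, -⟩ := hN n hn
      have g1 : Real.pi ^ n = Real.pi ^ (n - b₁) * Real.pi ^ b₁ := by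
        rw [← pow_add]; congr 1; omega
      have g2 : Real.pi ^ n = Real.pi ^ (n - b₂) * Real.pi ^ b₂ := by
        rw [← pow_add]; congr 1; omega
      have p1 : Real.pi ^ b₁ ≠ 0 := pow_ne_zero _ Real.pi_ne_zero
      have p2 : Real.pi ^ b₂ ≠ 0 := pow_ne_zero _ Real.pi_ne_zero
      rw [hZ n hn, qz_spec (N := n - b₁) (by omega) (Nat.Odd.sub_odd on o1),
        qz_spec (N := n - b₂) (by omega) (Nat.Odd.sub_odd on o2)]
      have t1 : zl [b₁] / Real.pi ^ b₁ * ((k n : ℝ) * (qz (n - b₁) : ℝ) * Real.pi ^ n) =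
          (k n : ℝ) * ((qz (n - b₁) : ℝ) * Real.pi ^ (n - b₁) * zl [b₁]) := by
        rw [g1]; field_simp
      have t2 : zl [b₂] / Real.pi ^ b₂ * ((k n : ℝ) * (qz (n - b₂) : ℝ) * Real.pi ^ n) =
          (k n : ℝ) * ((qz (n - b₂) : ℝ) * Real.pi ^ (n - b₂) * zl [b₂]) := by
        rw [g2]; field_simp
      rw [t1, t2]
      ring
    linarith
  have kl := key l hl
  have km := key m hm
  apply pol_pi hneq
  have y1 : zl [b₁] / Real.pi ^ b₁ ≠ 0 :=
    (div_pos (main_zl_pos _ (adm_single b₁ (by omega))) (pow_pos Real.pi_pos _)).ne'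
  have y2 : zl [b₂] / Real.pi ^ b₂ ≠ 0 :=
    (div_pos (main_zl_pos _ (adm_single b₂ (by omega))) (pow_pos Real.pi_pos _)).ne'
  apply mul_left_cancel₀ (mul_ne_zero y1 y2)
  have e1 : zl [b₁] / Real.pi ^ b₁ * (zl [b₂] / Real.pi ^ b₂) *
      (aeval Real.pi (pol N (fun n => qz (n - b₁)) l) *
        aeval Real.pi (pol N (fun n => qz (n - b₂)) m)) =
      (zl [b₁] / Real.pi ^ b₁ * aeval Real.pi (pol N (fun n => qz (n - b₁)) l)) *
      (zl [b₂] / Real.pi ^ b₂ * aeval Real.pi (pol N (fun n => qz (n - b₂)) m)) := by ring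
  have e2 : zl [b₁] / Real.pi ^ b₁ * (zl [b₂] / Real.pi ^ b₂) *
      (aeval Real.pi (pol N (fun n => qz (n - b₁)) m) *
        aeval Real.pi (pol N (fun n => qz (n - b₂)) l)) =
      (zl [b₁] / Real.pi ^ b₁ * aeval Real.pi (pol N (fun n => qz (n - b₁)) m)) *
      (zl [b₂] / Real.pi ^ b₂ * aeval Real.pi (pol N (fun n => qz (n - b₂)) l)) := by ring
  rw [e1, e2, kl, km]
  ring

end Pool.Agent.MZD
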